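import Mathlib
import Pool.Agent.H825R3.Tsi.Exist

/-!
# The separation constant of the unit ball of Tsirelson space is 2, and it is attained

`IsTsirelson X e` (from `Pool.Agent.H825R3.Tsi.Defs`) says that `X` with the sequence `e` is
Tsirelson space in the Figiel-Johnson form with its unit vectors; the index `k` stands for the
position `k + 1`.

For positions `i ≠ j` the vector `e_i + e_j` has norm one, and for four different positions, all at
least `4`, the vector `e_i + e_j - e_k - e_l` has norm two, since the four singletons form an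
admissible family. Hence the vectors `e_{2n+4} + e_{2n+5}`, `n = 0, 1, …`, are norm-one vectors with
all mutual distances equal to `2`.
-/
set_option autoImplicit false

open Pool.Agent.H825R3.Tsi

namespace Pool.Agent.Results.MP_6d986f_an.SeparationTwo

/-- The separations `lam > 0` such that the closed unit ball of `X` contains an infinite
`lam`-separated set. -/
def separations (X : Type) [NormedAddCommGroup X] : Set ℝ :=
  {lam : ℝ | 0 < lam ∧ ∃ S : Set X, S.Infinite ∧ S ⊆ Metric.closedBall 0 1 ∧
    ∀ x ∈ S, ∀ y ∈ S, x ≠ y → lam ≤ dist x y}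

/-- The separation constant `P(X)` of the unit ball of `X`. -/
noncomputable def sepConst (X : Type) [NormedAddCommGroup X] : ℝ := sSup (separations X)

lemma comb_add {X : Type} [NormedAddCommGroup X] [NormedSpace ℝ X] (e : ℕ → X) (x y : ℕ →₀ ℝ) :
    comb e (x + y) = comb e x + comb e y :=
  map_add (Finsupp.linearCombination ℝ e) x y

lemma comb_sub {X : Type} [NormedAddCommGroup X] [NormedSpace ℝ X] (e : ℕ → X) (x y : ℕ →₀ ℝ) :
    comb e (x - y) = comb e x - comb e y :=
  map_sub (Finsupp.linearCombination ℝ e) x y

lemma comb_single {X : Type} [NormedAddCommGroup X] [NormedSpace ℝ X] (e : ℕ → X) (k : ℕ)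
    (a : ℝ) : comb e (Finsupp.single k a) = a • e k := by
  unfold comb
  exact Finsupp.sum_single_index (h := fun k a => a • e k) (zero_smul ℝ (e k))

lemma comb_zero {X : Type} [NormedAddCommGroup X] [NormedSpace ℝ X] (e : ℕ → X) :
    comb e 0 = 0 := by
  unfold comb
  exact Finsupp.sum_zero_index

/-- restriction of a single vector -/
lemma restr_single (E : Finset ℕ) (k : ℕ) (a : ℝ) :
    restr E (Finsupp.single k a) = if k ∈ E then Finsupp.single k a else 0 := by
  unfold restr
  split_ifs with h
  · exact Finsupp.filter_single_of_pos _ h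
  · exact Finsupp.filter_single_of_neg _ h

lemma restr_add (E : Finset ℕ) (x y : ℕ →₀ ℝ) : restr E (x + y) = restr E x + restr E y :=
  Finsupp.filter_add

/-- In an admissible family each position lies in at most one member. -/
lemma sum_ite_mem_le {n : ℕ} {E : Fin n → Finset ℕ} (hE : Admissible n E) (k : ℕ) (c : ℝ)
    (hc : 0 ≤ c) : ∑ i, (if k ∈ E i then c else 0) ≤ c := by
  classical
  rw [← Finset.sum_filter, Finset.sum_const, nsmul_eq_mul]
  have hcard : (Finset.univ.filter fun i => k ∈ E i).card ≤ 1 := by
    rw [Finset.card_le_one]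
    intro i hi j hj
    rw [Finset.mem_filter] at hi hj
    by_contra hne
    rcases lt_or_gt_of_ne hne with h | h
    · exact lt_irrefl _ (hE.2.2 i j h k hi.2 k hj.2)
    · exact lt_irrefl _ (hE.2.2 j i h k hj.2 k hi.2)
  have : ((Finset.univ.filter fun i => k ∈ E i).card : ℝ) ≤ 1 := by exact_mod_cast hcard
  nlinarith

variable {X : Type} [NormedAddCommGroup X] [NormedSpace ℝ X] {e : ℕ → X}

/-- The unit vectors have norm at most one. -/
lemma norm_e_le (h : IsTsirelson X e) (k : ℕ) : ‖e k‖ ≤ 1 := by
  have hk : comb e (Finsupp.single k 1) = e k := by rw [comb_single, one_smul]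
  have h1 := h.norm_eq (Finsupp.single k 1)
  rw [hk] at h1
  have h2 : ‖e k‖ ≤ max 1 (‖e k‖ / 2) := by
    refine h1.2 ?_
    rintro r (⟨j, rfl⟩ | ⟨n, E, hn, hE, rfl⟩)
    · refine le_max_of_le_left ?_
      rw [Finsupp.single_apply]
      split_ifs <;> simp
    · refine le_max_of_le_right ?_
      have h3 : ∀ i, ‖comb e (restr (E i) (Finsupp.single k 1))‖ =
          if k ∈ E i then ‖e k‖ else 0 := by
        intro i
        rw [restr_single]
        split_ifs
        · rw [hk]
        · rw [comb_zero, norm_zero]
      simp only [h3]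
      have := sum_ite_mem_le hE k ‖e k‖ (norm_nonneg _)
      linarith
  rcases le_max_iff.1 h2 with h3 | h3
  · exact h3
  · have := norm_nonneg (e k)
    linarith

/-- The sum of two different unit vectors has norm at most one. -/
lemma norm_e_add_e_le (h : IsTsirelson X e) {k l : ℕ} (hkl : k ≠ l) : ‖e k + e l‖ ≤ 1 := by
  classical
  set x : ℕ →₀ ℝ := Finsupp.single k 1 + Finsupp.single l 1 with hx
  have hk : comb e x = e k + e l := by
    rw [hx, comb_add, comb_single, comb_single, one_smul, one_smul]
  have h1 := h.norm_eq x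
  rw [hk] at h1
  have h2 : ‖e k + e l‖ ≤ max 1 (‖e k + e l‖ / 2) := by
    refine h1.2 ?_
    rintro r (⟨j, rfl⟩ | ⟨n, E, hn, hE, rfl⟩)
    · refine le_max_of_le_left ?_
      rw [hx, Finsupp.add_apply, Finsupp.single_apply, Finsupp.single_apply]
      by_cases h1 : k = j
      · have h2 : l ≠ j := fun h2 => hkl (h1.trans h2.symm)
        rw [if_pos h1, if_neg h2]
        simp
      · rw [if_neg h1]
        split_ifs <;> simp
    · have h3 : ∀ i, comb e (restr (E i) x) =
          (if k ∈ E i then e k else 0) + (if l ∈ E i then e l else 0) := by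
        intro i
        rw [hx, restr_add, restr_single, restr_single, comb_add]
        congr 1
        · split_ifs
          · rw [comb_single, one_smul]
          · exact comb_zero e
        · split_ifs
          · rw [comb_single, one_smul]
          · exact comb_zero e
      simp only [h3]
      by_cases hboth : ∃ i, k ∈ E i ∧ l ∈ E i
      · obtain ⟨i0, hk0, hl0⟩ := hboth
        refine le_max_of_le_right ?_
        have h4 : ∀ i, ‖(if k ∈ E i then e k else 0) + (if l ∈ E i then e l else 0)‖ =
            if k ∈ E i then ‖e k + e l‖ else 0 := by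
          intro i
          by_cases hi : i = i0
          · subst hi
            rw [if_pos hk0, if_pos hl0, if_pos hk0]
          · have hk1 : k ∉ E i := by
              intro hk1
              rcases lt_or_gt_of_ne hi with h5 | h5
              · exact lt_irrefl _ (hE.2.2 i i0 h5 k hk1 k hk0)
              · exact lt_irrefl _ (hE.2.2 i0 i h5 k hk0 k hk1)
            have hl1 : l ∉ E i := by
              intro hl1
              rcases lt_or_gt_of_ne hi with h5 | h5
              · exact lt_irrefl _ (hE.2.2 i i0 h5 l hl1 l hl0)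
              · exact lt_irrefl _ (hE.2.2 i0 i h5 l hl0 l hl1)
            rw [if_neg hk1, if_neg hl1, if_neg hk1, add_zero, norm_zero]
        simp only [h4]
        have := sum_ite_mem_le hE k ‖e k + e l‖ (norm_nonneg _)
        linarith
      · refine le_max_of_le_left ?_
        have h4 : ∀ i, ‖(if k ∈ E i then e k else 0) + (if l ∈ E i then e l else 0)‖ ≤
            (if k ∈ E i then (1 : ℝ) else 0) + (if l ∈ E i then (1 : ℝ) else 0) := by
          intro i
          refine (norm_add_le _ _).trans (add_le_add ?_ ?_)
          · split_ifs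
            · exact norm_e_le h k
            · simp
          · split_ifs
            · exact norm_e_le h l
            · simp
        have h5 := Finset.sum_le_sum fun i (_ : i ∈ Finset.univ) => h4 i
        rw [Finset.sum_add_distrib] at h5
        have h6 := sum_ite_mem_le hE k 1 zero_le_one
        have h7 := sum_ite_mem_le hE l 1 zero_le_one
        linarith
  rcases le_max_iff.1 h2 with h3 | h3
  · exact h3
  · have := norm_nonneg (e k + e l)
    linarith

/-- The unit vectors have norm at least one. -/
lemma one_le_norm_e (h : IsTsirelson X e) (k : ℕ) : 1 ≤ ‖e k‖ := by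
  have hk : comb e (Finsupp.single k 1) = e k := by rw [comb_single, one_smul]
  have h1 := h.norm_eq (Finsupp.single k 1)
  rw [hk] at h1
  refine h1.1 (Or.inl ⟨k, ?_⟩)
  simp

lemma one_le_norm_e_add_e (h : IsTsirelson X e) {k l : ℕ} (hkl : k ≠ l) : 1 ≤ ‖e k + e l‖ := by
  classical
  have hk : comb e (Finsupp.single k 1 + Finsupp.single l 1) = e k + e l := by
    rw [comb_add, comb_single, comb_single, one_smul, one_smul]
  have h1 := h.norm_eq (Finsupp.single k 1 + Finsupp.single l 1)
  rw [hk] at h1
  refine h1.1 (Or.inl ⟨k, ?_⟩)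
  rw [Finsupp.add_apply, Finsupp.single_eq_same, Finsupp.single_apply, if_neg hkl.symm]
  simp

/-- If `a < b < c < d` are positions `≥ 4`, then `e_a + e_b - e_c - e_d` has norm at least `2`. -/
lemma two_le (h : IsTsirelson X e) {a b c d : ℕ} (ha : 3 ≤ a) (hab : a < b) (hbc : b < c)
    (hcd : c < d) : 2 ≤ ‖(e a + e b) - (e c + e d)‖ := by
  classical
  set x : ℕ →₀ ℝ := (Finsupp.single a 1 + Finsupp.single b 1) -
    (Finsupp.single c 1 + Finsupp.single d 1) with hx
  have hk : comb e x = (e a + e b) - (e c + e d) := by
    rw [hx, comb_sub, comb_add, comb_add, comb_single, comb_single, comb_single, comb_single]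
    simp only [one_smul]
  have h1 := h.norm_eq x
  rw [hk] at h1
  let p : Fin 4 → ℕ := ![a, b, c, d]
  have hp : ∀ i j : Fin 4, i < j → p i < p j := by
    intro i j hij
    fin_cases i <;> fin_cases j <;> simp [p] at hij ⊢ <;> omega
  have hE : Admissible 4 (fun i => {p i}) := by
    refine ⟨fun i => Finset.singleton_nonempty _, ?_, ?_⟩
    · intro i k hk
      rw [Finset.mem_singleton] at hk
      subst hk
      fin_cases i <;> simp [p] <;> omega
    · intro i j hij s hs t ht
      rw [Finset.mem_singleton] at hs ht
      subst hs ht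
      exact hp i j hij
  have h2 : ∀ k, restr {k} x = Finsupp.single k (x k) := by
    intro k
    ext m
    unfold restr
    rw [Finsupp.filter_apply, Finsupp.single_apply]
    by_cases hm : m = k
    · subst hm
      simp
    · rw [if_neg (by simpa using hm), if_neg (fun h => hm h.symm)]
  have h3 : ∀ i : Fin 4, |x (p i)| = 1 := by
    intro i
    fin_cases i
    · change |x a| = 1
      simp [hx, show ¬ (b = a) by omega, show ¬ (c = a) by omega, show ¬ (d = a) by omega]
    · change |x b| = 1
      simp [hx, show ¬ (a = b) by omega, show ¬ (c = b) by omega, show ¬ (d = b) by omega]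
    · change |x c| = 1
      simp [hx, show ¬ (a = c) by omega, show ¬ (b = c) by omega, show ¬ (d = c) by omega]
    · change |x d| = 1
      simp [hx, show ¬ (a = d) by omega, show ¬ (b = d) by omega, show ¬ (c = d) by omega]
  have h4 : ∀ i : Fin 4, 1 ≤ ‖comb e (restr {p i} x)‖ := by
    intro i
    rw [h2, comb_single, norm_smul, Real.norm_eq_abs, h3 i, one_mul]
    exact one_le_norm_e h _
  have h5 : (1 / 2) * ∑ i : Fin 4, ‖comb e (restr {p i} x)‖ ≤ ‖(e a + e b) - (e c + e d)‖ :=
    h1.1 (Or.inr ⟨4, fun i => {p i}, by norm_num, hE, rfl⟩)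
  have h6 := Finset.sum_le_sum fun i (_ : i ∈ (Finset.univ : Finset (Fin 4))) => h4 i
  rw [Finset.sum_const, Finset.card_univ, Fintype.card_fin] at h6
  norm_num at h6
  linarith

/-- The vectors `e_{2n+4} + e_{2n+5}` (positions), that is `e (2n+3) + e (2n+4)`. -/
def v (e : ℕ → X) (n : ℕ) : X := e (2 * n + 3) + e (2 * n + 4)

lemma norm_v (h : IsTsirelson X e) (n : ℕ) : ‖v e n‖ = 1 :=
  le_antisymm (norm_e_add_e_le h (by omega)) (one_le_norm_e_add_e h (by omega))

lemma norm_v_sub (h : IsTsirelson X e) {m n : ℕ} (hmn : m ≠ n) : ‖v e m - v e n‖ = 2 := by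
  refine le_antisymm ?_ ?_
  · calc ‖v e m - v e n‖ ≤ ‖v e m‖ + ‖v e n‖ := norm_sub_le _ _
      _ = 2 := by rw [norm_v h, norm_v h]; norm_num
  · rcases lt_or_gt_of_ne hmn with h1 | h1
    · exact two_le h (by omega) (by omega) (by omega) (by omega)
    · rw [norm_sub_rev]
      exact two_le h (by omega) (by omega) (by omega) (by omega)

/-- **The separation constant of the unit ball of Tsirelson space is 2, and it is attained.**

1. Tsirelson space exists: there is a Banach space with a sequence satisfying `IsTsirelson`.
2. For every realisation `X` of Tsirelson space, `P(X) = 2`, and the supremum is attained: the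
   vectors `e_{2n+4} + e_{2n+5}` (positions) have norm one and mutual distances equal to `2`. -/
theorem result :
    (∃ (X : Type) (_ : NormedAddCommGroup X) (_ : NormedSpace ℝ X) (e : ℕ → X),
      IsTsirelson X e) ∧
    ∀ (X : Type) [NormedAddCommGroup X] [NormedSpace ℝ X] (e : ℕ → X), IsTsirelson X e →
      sepConst X = 2 ∧
      (∀ n, ‖e (2 * n + 3) + e (2 * n + 4)‖ = 1) ∧
      ∀ m n, m ≠ n →
        ‖(e (2 * m + 3) + e (2 * m + 4)) - (e (2 * n + 3) + e (2 * n + 4))‖ = 2 := by
  refine ⟨⟨TT, inferInstance, inferInstance, ee, isTsirelson_TT⟩, ?_⟩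
  intro X _ _ e h
  have hG : IsGreatest (separations X) 2 := by
    refine ⟨⟨by norm_num, Set.range (v e), ?_, ?_, ?_⟩, ?_⟩
    · refine Set.infinite_range_of_injective ?_
      intro m n hmn
      by_contra hne
      have := norm_v_sub h hne
      rw [hmn, sub_self, norm_zero] at this
      norm_num at this
    · rintro _ ⟨n, rfl⟩
      rw [mem_closedBall_zero_iff, norm_v h]
    · rintro _ ⟨m, rfl⟩ _ ⟨n, rfl⟩ hne
      have hmn : m ≠ n := fun hmn => hne (by rw [hmn])
      rw [dist_eq_norm, norm_v_sub h hmn]
    · rintro lam ⟨_, S, hS, hB, hsep⟩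
      obtain ⟨x, hx⟩ := hS.nonempty
      obtain ⟨y, hy, hxy⟩ := hS.exists_notMem_finset {x}
      have hne : x ≠ y := by
        intro h1
        exact hxy (by simp [h1])
      have h1 := hsep x hx y hy hne
      have h2 := hB hx
      have h3 := hB hy
      rw [mem_closedBall_zero_iff] at h2 h3
      rw [dist_eq_norm] at h1
      have h4 := norm_sub_le x y
      linarith
  exact ⟨hG.csSup_eq, fun n => norm_v h n, fun m n hmn => norm_v_sub h hmn⟩

end Pool.Agent.Results.MP_6d986f_an.SeparationTwo
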